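import Pool.Agent.H3RD.W830.RD.Stm

/-! # Project RD: removing a pair of chains except one element -/

set_option autoImplicit false

namespace Pool.Agent.W436.RD.Step2

open Pool.Agent.W830.RD
open scoped Classical

theorem sel {α : Type} (Q J : Finset (Finset α)) (C' : Finset α) (hJ : J ⊆ Q) (k : ℕ)
    (hk : k + 1 ≤ J.card) : ∃ J' ⊆ Q.erase C', J'.card = k ∧
      ∑ C ∈ J', (C.card - 2) ≤ ∑ C ∈ J, (C.card - 2) := by
  have h1 : k ≤ (J.erase C').card := by
    have := Finset.pred_card_le_card_erase (s := J) (a := C')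
    omega
  obtain ⟨J', hJ', hc⟩ := Finset.exists_subset_card_eq h1
  refine ⟨J', hJ'.trans (Finset.erase_subset_erase _ hJ), hc, ?_⟩
  exact Finset.sum_le_sum_of_subset (hJ'.trans (Finset.erase_subset _ _))

theorem main : S_STEP2 := by
  intro α _ N S T P Q H hj hs ht
  obtain ⟨st, h1, h2, h3, h4, J, hJ, I, hI, hJc, hIc, hsum⟩ := H
  obtain ⟨k, hk⟩ : ∃ k : ℕ, jj N S.card T.card P.card Q.card = (k : ℤ) + 1 := by
    refine ⟨(jj N S.card T.card P.card Q.card - 1).toNat, ?_⟩
    rw [Int.toNat_of_nonneg (by omega)]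
    ring
  have hJk : J.card = k + 1 := by
    have : (J.card : ℤ) = (k : ℤ) + 1 := by
      rw [hJc, max_eq_left (le_of_lt ht), hk]
      exact max_eq_left (by positivity)
    exact_mod_cast this
  have hIk : I.card = k + 1 := by
    have : (I.card : ℤ) = (k : ℤ) + 1 := by
      rw [hIc, max_eq_left (le_of_lt hs), hk]
      exact max_eq_left (by positivity)
    exact_mod_cast this
  constructor
  · intro C hC C' hC' y0 hy0
    have hy0T : y0 ∉ T := fun h => (Finset.disjoint_left.1 (st.dQ C' hC') hy0) h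
    have hp1 : 1 ≤ P.card := Finset.card_pos.2 ⟨C, hC⟩
    have hq1 : 1 ≤ Q.card := Finset.card_pos.2 ⟨C', hC'⟩
    have eT : ((insert y0 T).card : ℤ) = T.card + 1 := by
      rw [Finset.card_insert_of_notMem hy0T]; push_cast; ring
    have eP : ((P.erase C).card : ℤ) = P.card - 1 := by
      rw [Finset.card_erase_of_mem hC]; push_cast [Nat.cast_sub hp1]; ring
    have eQ : ((Q.erase C').card : ℤ) = Q.card - 1 := by
      rw [Finset.card_erase_of_mem hC']; push_cast [Nat.cast_sub hq1]; ring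
    obtain ⟨J', hJ', hJ'c, hJ's⟩ := sel Q J C' hJ k hJk.ge
    obtain ⟨I', hI', hI'c, hI's⟩ := sel P I C hI k hIk.ge
    have z1 : ((∑ C ∈ J', (C.card - 2) : ℕ) : ℤ) ≤ ((∑ C ∈ J, (C.card - 2) : ℕ) : ℤ) := by
      exact_mod_cast hJ's
    have z2 : ((∑ C ∈ I', (C.card - 2) : ℕ) : ℤ) ≤ ((∑ C ∈ I, (C.card - 2) : ℕ) : ℤ) := by
      exact_mod_cast hI's
    unfold jj exc at hk h2 h4 hs ht
    unfold exc at hsum
    refine ⟨⟨?_, ?_, ?_, ?_, ?_, ?_, ?_, ?_⟩, ?_, ?_, ?_, ?_, J', hJ', I', hI', ?_, ?_, ?_⟩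
    · exact fun D hD => st.chP D (Finset.mem_of_mem_erase hD)
    · exact fun D hD => st.chQ D (Finset.mem_of_mem_erase hD)
    · exact fun D hD => st.cP D (Finset.mem_of_mem_erase hD)
    · exact fun D hD => st.cQ D (Finset.mem_of_mem_erase hD)
    · exact fun D hD => st.dP D (Finset.mem_of_mem_erase hD)
    · intro D hD
      rw [Finset.disjoint_insert_right]
      refine ⟨fun h => ?_, st.dQ D (Finset.mem_of_mem_erase hD)⟩
      exact (Finset.disjoint_left.1 (st.pQ D (Finset.mem_of_mem_erase hD) C' hC'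
        (Finset.ne_of_mem_erase hD)) h) hy0
    · exact fun D hD D' hD' => st.pP D (Finset.mem_of_mem_erase hD) D' (Finset.mem_of_mem_erase hD')
    · exact fun D hD D' hD' => st.pQ D (Finset.mem_of_mem_erase hD) D' (Finset.mem_of_mem_erase hD')
    · rw [eP]; linarith
    · unfold jj exc; rw [eT, eP, eQ]; linarith
    · rw [eT, eQ]; linarith
    · unfold jj exc; rw [eT, eP, eQ]; linarith
    · unfold jj exc; rw [eT, eP, eQ, hJ'c]
      omega
    · unfold jj exc; rw [eT, eP, eQ, hI'c]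
      omega
    · unfold exc; rw [eT, eP, eQ]; linarith
  · intro C hC C' hC' x0 hx0
    have hx0S : x0 ∉ S := fun h => (Finset.disjoint_left.1 (st.dP C hC) hx0) h
    have hp1 : 1 ≤ P.card := Finset.card_pos.2 ⟨C, hC⟩
    have hq1 : 1 ≤ Q.card := Finset.card_pos.2 ⟨C', hC'⟩
    have eS : ((insert x0 S).card : ℤ) = S.card + 1 := by
      rw [Finset.card_insert_of_notMem hx0S]; push_cast; ring
    have eP : ((P.erase C).card : ℤ) = P.card - 1 := by
      rw [Finset.card_erase_of_mem hC]; push_cast [Nat.cast_sub hp1]; ring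
    have eQ : ((Q.erase C').card : ℤ) = Q.card - 1 := by
      rw [Finset.card_erase_of_mem hC']; push_cast [Nat.cast_sub hq1]; ring
    obtain ⟨J', hJ', hJ'c, hJ's⟩ := sel Q J C' hJ k hJk.ge
    obtain ⟨I', hI', hI'c, hI's⟩ := sel P I C hI k hIk.ge
    have z1 : ((∑ C ∈ J', (C.card - 2) : ℕ) : ℤ) ≤ ((∑ C ∈ J, (C.card - 2) : ℕ) : ℤ) := by
      exact_mod_cast hJ's
    have z2 : ((∑ C ∈ I', (C.card - 2) : ℕ) : ℤ) ≤ ((∑ C ∈ I, (C.card - 2) : ℕ) : ℤ) := by
      exact_mod_cast hI's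
    unfold jj exc at hk h2 h4 hs ht
    unfold exc at hsum
    refine ⟨⟨?_, ?_, ?_, ?_, ?_, ?_, ?_, ?_⟩, ?_, ?_, ?_, ?_, J', hJ', I', hI', ?_, ?_, ?_⟩
    · exact fun D hD => st.chP D (Finset.mem_of_mem_erase hD)
    · exact fun D hD => st.chQ D (Finset.mem_of_mem_erase hD)
    · exact fun D hD => st.cP D (Finset.mem_of_mem_erase hD)
    · exact fun D hD => st.cQ D (Finset.mem_of_mem_erase hD)
    · intro D hD
      rw [Finset.disjoint_insert_right]
      refine ⟨fun h => ?_, st.dP D (Finset.mem_of_mem_erase hD)⟩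
      exact (Finset.disjoint_left.1 (st.pP D (Finset.mem_of_mem_erase hD) C hC
        (Finset.ne_of_mem_erase hD)) h) hx0
    · exact fun D hD => st.dQ D (Finset.mem_of_mem_erase hD)
    · exact fun D hD D' hD' => st.pP D (Finset.mem_of_mem_erase hD) D' (Finset.mem_of_mem_erase hD')
    · exact fun D hD D' hD' => st.pQ D (Finset.mem_of_mem_erase hD) D' (Finset.mem_of_mem_erase hD')
    · rw [eS, eP]; linarith
    · unfold jj exc; rw [eS, eP, eQ]; linarith
    · rw [eQ]; linarith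
    · unfold jj exc; rw [eS, eP, eQ]; linarith
    · unfold jj exc; rw [eS, eP, eQ, hJ'c]
      omega
    · unfold jj exc; rw [eS, eP, eQ, hI'c]
      omega
    · unfold exc; rw [eS, eP, eQ]; linarith

end Pool.Agent.W436.RD.Step2
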